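import Mathlib
import Pool.Agent.W533.PP.Stm

/-!
# Active sites after an insertion
-/

set_option autoImplicit false

namespace Pool.Agent.W348.PP

open Finset Pool.Agent.W533.PP

theorem ins_val {n : ℕ} (v : Fin (n + 1)) (τ : Equiv.Perm (Fin n)) (i : Fin n) :
    (ins v τ i.castSucc).val = if (τ i).val < v.val then (τ i).val else (τ i).val + 1 := by
  rw [ins_castSucc]
  unfold Fin.succAbove
  have h : (Fin.castSucc (τ i) < v) = ((τ i).val < v.val) := rfl
  simp only [h]
  split_ifs <;> rfl

theorem pact : PACT := by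
  intro n τ v s
  constructor
  · intro hA
    refine ⟨?_, ?_⟩
    · intro i j k hij hk hcon
      obtain ⟨h1, h2, h3⟩ := hcon
      have h4 := hA i.castSucc j.castSucc k.castSucc (by exact hij) (by exact hk)
      apply h4
      rw [ins_val, ins_val, ins_val]
      split_ifs at h2 h3 <;> split_ifs <;> omega
    · rintro ⟨h1, h2⟩
      have hv := v.isLt
      have hL : (τ (Fin.last n)).val + 1 < n + 1 := by omega
      obtain ⟨i0, hi0⟩ := τ.surjective ⟨(τ (Fin.last n)).val + 1, hL⟩
      have hval : (τ i0).val = (τ (Fin.last n)).val + 1 := by rw [hi0]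
      have hne : i0 ≠ Fin.last n := by
        rintro rfl
        omega
      have hlt : i0 < Fin.last n := lt_of_le_of_ne (Fin.le_last _) hne
      have h4 := hA i0.castSucc (Fin.last n).castSucc (Fin.last (n + 1)) (by exact hlt) rfl
      apply h4
      rw [ins_val, ins_val, ins_last]
      split_ifs <;> omega
  · rintro ⟨hA, hB⟩
    intro i j k hij hk hcon
    obtain ⟨h1, h2, h3⟩ := hcon
    have hklt := k.isLt
    have hijv : i.val < j.val := hij
    obtain ⟨i', rfl⟩ : ∃ i' : Fin (n + 1), i = i'.castSucc :=
      ⟨⟨i.val, by omega⟩, rfl⟩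
    obtain ⟨j', rfl⟩ : ∃ j' : Fin (n + 1), j = j'.castSucc :=
      ⟨⟨j.val, by omega⟩, rfl⟩
    have hij' : i' < j' := hij
    rw [ins_val] at h1 h2
    rw [ins_val] at h1
    by_cases hkl : k.val = n + 1
    · have hk2 : k = Fin.last (n + 1) := Fin.ext hkl
      subst hk2
      have hj : j' = Fin.last n := by
        apply Fin.ext
        have : (Fin.last (n + 1)).val = j'.val + 1 := hk
        have e1 : (Fin.last (n + 1)).val = n + 1 := rfl
        have e2 : (Fin.last n).val = n := rfl
        omega
      subst hj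
      rw [ins_last] at h3
      apply hB
      split_ifs at h1 h2 <;> omega
    · obtain ⟨k', rfl⟩ : ∃ k' : Fin (n + 1), k = k'.castSucc :=
        ⟨⟨k.val, by omega⟩, rfl⟩
      rw [ins_val] at h3
      have h4 := hA i' j' k' hij' hk
      apply h4
      split_ifs at h1 h2 h3 <;> split_ifs <;> omega

end Pool.Agent.W348.PP
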